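import Pool.Agent.N283.SA.Fin

/-!
# Two commuting sofic actions whose combined action is not sofic
-/

set_option autoImplicit false

namespace Pool.Agent.Results.MP_1f9cc6_al.CombinedActionNotSofic

open Pool.Agent.N283.SA (SoficAction)

/-- There are a countable group `G`, a countable set `X` and two commuting sofic actions `α`, `β` of
`G` on `X` such that the combined action `(g, h) ↦ α(g) β(h)` of `G × G` on `X` is not sofic.
Moreover `G` is residually finite and both actions are free. -/
theorem result : ∃ (G X : Type) (_ : Group G) (_ : Countable G) (_ : Countable X)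
    (α β : G →* Equiv.Perm X) (hc : ∀ g h, Commute (α g) (β h)),
    SoficAction α ∧ SoficAction β ∧ ¬ SoficAction (MonoidHom.noncommCoprod α β hc) ∧
      (∀ g : G, g ≠ 1 → ∃ (Q : Type) (_ : Group Q) (_ : Finite Q) (q : G →* Q), q g ≠ 1) ∧
      (∀ g x, α g x = x → g = 1) ∧ (∀ g x, β g x = x → g = 1) :=
  Pool.Agent.N283.SA.final

end Pool.Agent.Results.MP_1f9cc6_al.CombinedActionNotSofic
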